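import Pool.Agent.H11Sum.Merge

set_option autoImplicit false

namespace Pool.Agent.H11Sum

open Set Matroid

variable {α : Type*}

/-- the statement for one matroid on the disjoint union of two bases -/
def Ok (N : Matroid α) : Prop :=
  N.E.Finite → ∀ B B', N.IsBase B → N.IsBase B' → Disjoint B B' → B ∪ B' = N.E →
    ∃ l, Good N B B' l

theorem step1 {N : Matroid α} (hE : N.E.Finite) {B B' K : Set α} (hB : N.IsBase B)
    (hB' : N.IsBase B') (hd : Disjoint B B') (hu : B ∪ B' = N.E) (hKE : K ⊆ N.E)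
    (hK : ∀ A A', N.IsBase A → N.IsBase A' → (A ∩ K).ncard ≤ (A' ∩ K).ncard + 1)
    (h2 : 2 ≤ K.ncard) (h2' : 2 ≤ (N.E \ K).ncard)
    (hc : (B ∩ K).ncard = (B' ∩ K).ncard)
    (ih : ∀ N' : Matroid α, N' ≤m N → N'.E.ncard < N.E.ncard → Ok N') :
    ∃ l, Good N B B' l := by
  have hdm : ∀ z, z ∈ B → z ∈ B' → False := fun z h h' => (Set.disjoint_left.1 hd) h h'
  have hum : ∀ z, z ∈ N.E ↔ z ∈ B ∨ z ∈ B' := fun z => by rw [← hu, mem_union]
  have fK : K.Finite := hE.subset hKE
  have fL : (N.E \ K).Finite := hE.subset sdiff_subset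
  have hn : K.ncard + (N.E \ K).ncard = N.E.ncard := by
    have := card_split (K := K) hE
    rwa [inter_eq_right.2 hKE] at this
  have b1 : N.IsBase ((B ∩ K) ∪ (B \ K)) := by rw [inter_union_sdiff]; exact hB
  have b1' : N.IsBase ((B \ K) ∪ (B ∩ K)) := by rw [union_comm]; exact b1
  have b2 : N.IsBase ((B' ∩ K) ∪ (B \ K)) := swap hE hK hB' hB hc.symm
  have b3 : N.IsBase ((B' \ K) ∪ (B ∩ K)) := by
    rw [union_comm]
    exact swap hE hK hB hB' hc
  have m1 := minor_base (N := N) (C := B \ K) (D := B' \ K) (X0 := B ∩ K) b1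
    (Set.disjoint_left.2 fun z h h' => h'.2 h.2)
    (Set.disjoint_left.2 fun z h h' => h'.2 h.2)
    (sdiff_subset.trans hB'.subset_ground)
    (Set.disjoint_left.2 fun z h h' => hdm z h.1 h'.1)
  have m2 := minor_base (N := N) (C := B ∩ K) (D := B' ∩ K) (X0 := B \ K) b1'
    (Set.disjoint_left.2 fun z h h' => h.2 h'.2)
    (Set.disjoint_left.2 fun z h h' => h.2 h'.2)
    (inter_subset_left.trans hB'.subset_ground)
    (Set.disjoint_left.2 fun z h h' => hdm z h.1 h'.1)
  have g1 : (N ／ (B \ K) ＼ (B' \ K)).E = K := by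
    rw [delete_ground, contract_ground]
    ext z
    simp only [mem_sdiff, hum]
    constructor
    · tauto
    · intro hz
      have := hum z
      have := hKE hz
      tauto
  have g2 : (N ／ (B ∩ K) ＼ (B' ∩ K)).E = N.E \ K := by
    rw [delete_ground, contract_ground]
    ext z
    simp only [mem_sdiff, hum, mem_inter_iff]
    tauto
  obtain ⟨l1, hl1⟩ := ih (N ／ (B \ K) ＼ (B' \ K)) (contract_delete_isMinor _ _ _)
    (by rw [g1]; omega) (by rw [g1]; exact fK) (B ∩ K) (B' ∩ K)
    ((m1 _).2 ⟨⟨b1, Set.disjoint_left.2 fun z h h' => h'.2 h.2⟩,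
      Set.disjoint_left.2 fun z h h' => h'.2 h.2⟩)
    ((m1 _).2 ⟨⟨b2, Set.disjoint_left.2 fun z h h' => h'.2 h.2⟩,
      Set.disjoint_left.2 fun z h h' => h'.2 h.2⟩)
    (Set.disjoint_left.2 fun z h h' => hdm z h.1 h'.1)
    (by
      rw [g1]
      ext z
      simp only [mem_union, mem_inter_iff]
      constructor
      · tauto
      · intro hz
        have := (hum z).1 (hKE hz)
        tauto)
  obtain ⟨l2, hl2⟩ := ih (N ／ (B ∩ K) ＼ (B' ∩ K)) (contract_delete_isMinor _ _ _)
    (by rw [g2]; omega) (by rw [g2]; exact fL) (B \ K) (B' \ K)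
    ((m2 _).2 ⟨⟨b1', Set.disjoint_left.2 fun z h h' => h.2 h'.2⟩,
      Set.disjoint_left.2 fun z h h' => h.2 h'.2⟩)
    ((m2 _).2 ⟨⟨b3, Set.disjoint_left.2 fun z h h' => h.2 h'.2⟩,
      Set.disjoint_left.2 fun z h h' => h.2 h'.2⟩)
    (Set.disjoint_left.2 fun z h h' => hdm z h.1 h'.1)
    (by
      rw [g2]
      ext z
      simp only [mem_union, mem_sdiff, hum]
      tauto)
  exact ⟨l1 ++ l2, glue1 hE hK hB hl1.len hl2.len hl1.e1 hl1.e2 hl2.e1 hl2.e2
    (fun a b h => ⟨((m1 _).1 (hl1.w a b h).1).1.1, ((m1 _).1 (hl1.w a b h).2).1.1⟩)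
    (fun a b h => ⟨((m2 _).1 (hl2.w a b h).1).1.1, ((m2 _).1 (hl2.w a b h).2).1.1⟩)⟩

theorem step2 {N : Matroid α} (hE : N.E.Finite) {B B' K : Set α} (hB : N.IsBase B)
    (hB' : N.IsBase B') (hd : Disjoint B B') (hu : B ∪ B' = N.E) (hKE : K ⊆ N.E)
    (hK : ∀ A A', N.IsBase A → N.IsBase A' → (A ∩ K).ncard ≤ (A' ∩ K).ncard + 1)
    (h2 : 2 ≤ K.ncard) (h2' : 2 ≤ (N.E \ K).ncard)
    (hc : (B ∩ K).ncard = (B' ∩ K).ncard + 1)
    (ih : ∀ N' : Matroid α, N' ≤m N → N'.E.ncard < N.E.ncard → Ok N') :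
    ∃ l, Good N B B' l := by
  have hdm : ∀ z, z ∈ B → z ∈ B' → False := fun z h h' => (Set.disjoint_left.1 hd) h h'
  have hum : ∀ z, z ∈ N.E ↔ z ∈ B ∨ z ∈ B' := fun z => by rw [← hu, mem_union]
  have fK : K.Finite := hE.subset hKE
  have fB : B.Finite := hE.subset hB.subset_ground
  have fB' : B'.Finite := hE.subset hB'.subset_ground
  have fL : (N.E \ K).Finite := hE.subset sdiff_subset
  have hn : K.ncard + (N.E \ K).ncard = N.E.ncard := by
    have := card_split (K := K) hE
    rwa [inter_eq_right.2 hKE] at this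
  have cB := card_split (K := K) fB
  have cB' := card_split (K := K) fB'
  have cBB := hB.ncard_eq_ncard_of_isBase hB'
  -- the element q
  obtain ⟨q, hq, hqi⟩ := (hB.indep.subset (sdiff_subset (t := K))).augment
    (hB'.indep.subset (sdiff_subset (t := K))) (by
      rw [← (fB.subset sdiff_subset).cast_ncard_eq, ← (fB'.subset sdiff_subset).cast_ncard_eq]
      exact_mod_cast (by omega : (B \ K).ncard < (B' \ K).ncard))
  have hqK : q ∉ K := hq.1.2
  have hqB' : q ∈ B' := hq.1.1
  have hqB : q ∉ B := fun h => hdm q h hqB'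
  have bq : N.IsBase ((B' ∩ K) ∪ insert q (B \ K)) := by
    obtain ⟨C, hC, c1, c2⟩ := hqi.exists_isBase_subset_union_isBase hB
    have fC : C.Finite := hE.subset hC.subset_ground
    have cC := card_split (K := K) fC
    have hCd : C \ K = insert q (B \ K) := by
      ext z
      constructor
      · rintro ⟨hz, hzK⟩
        rcases c2 hz with h | h
        · exact h
        · exact Or.inr ⟨h, hzK⟩
      · intro hz
        refine ⟨c1 hz, ?_⟩
        rcases hz with rfl | hz
        · exact hqK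
        · exact hz.2
    have hc1 : (insert q (B \ K)).ncard = (B \ K).ncard + 1 :=
      Set.ncard_insert_of_notMem (fun h => hqB h.1) (fB.subset sdiff_subset)
    have cCB := hC.ncard_eq_ncard_of_isBase hB
    rw [hCd, hc1] at cC
    have := swap hE hK hB' hC (by omega)
    rwa [hCd] at this
  -- the element p
  obtain ⟨p, hp, hpi⟩ := (hB'.indep.subset (inter_subset_left (t := K))).augment
    (hB.indep.subset (inter_subset_left (t := K))) (by
      rw [← (fB.subset inter_subset_left).cast_ncard_eq,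
        ← (fB'.subset inter_subset_left).cast_ncard_eq]
      exact_mod_cast (by omega : (B' ∩ K).ncard < (B ∩ K).ncard))
  have hpK : p ∈ K := hp.1.2
  have hpB : p ∈ B := hp.1.1
  have hpB' : p ∉ B' := fun h => hdm p hpB h
  have bp : N.IsBase (insert p (B' ∩ K) ∪ (B \ K)) := by
    obtain ⟨C, hC, c1, c2⟩ := hpi.exists_isBase_subset_union_isBase hB'
    have fC : C.Finite := hE.subset hC.subset_ground
    have hCd : C ∩ K = insert p (B' ∩ K) := by
      ext z
      constructor
      · rintro ⟨hz, hzK⟩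
        rcases c2 hz with h | h
        · exact h
        · exact Or.inr ⟨h, hzK⟩
      · intro hz
        refine ⟨c1 hz, ?_⟩
        rcases hz with rfl | hz
        · exact hpK
        · exact hz.2
    have hc1 : (insert p (B' ∩ K)).ncard = (B' ∩ K).ncard + 1 :=
      Set.ncard_insert_of_notMem (fun h => hpB' h.1) (fB'.subset inter_subset_left)
    have := swap hE hK hC hB (by rw [hCd, hc1]; omega)
    rwa [hCd] at this
  have bq' : N.IsBase (insert q (B' ∩ K) ∪ (B \ K)) := by
    convert bq using 1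
    ext z
    simp only [mem_union, mem_insert_iff]
    tauto
  have bp' : N.IsBase (insert p (B \ K) ∪ (B' ∩ K)) := by
    convert bp using 1
    ext z
    simp only [mem_union, mem_insert_iff]
    tauto
  have b1 : N.IsBase ((B ∩ K) ∪ (B \ K)) := by rw [inter_union_sdiff]; exact hB
  have b2 : N.IsBase ((B' \ K) ∪ (B' ∩ K)) := by
    rw [union_comm, inter_union_sdiff]
    exact hB'
  have m1 := minor_base (N := N) (C := B \ K) (D := (B' \ K) \ {q}) (X0 := B ∩ K) b1
    (Set.disjoint_left.2 fun z h h' => h'.2 h.2)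
    (Set.disjoint_left.2 fun z h h' => h'.1.2 h.2)
    (sdiff_subset.trans (sdiff_subset.trans hB'.subset_ground))
    (Set.disjoint_left.2 fun z h h' => hdm z h.1 h'.1.1)
  have m2 := minor_base (N := N) (C := B' ∩ K) (D := (B ∩ K) \ {p}) (X0 := B' \ K) b2
    (Set.disjoint_left.2 fun z h h' => h.2 h'.2)
    (Set.disjoint_left.2 fun z h h' => h.2 h'.1.2)
    (sdiff_subset.trans (inter_subset_left.trans hB.subset_ground))
    (Set.disjoint_left.2 fun z h h' => hdm z h'.1.1 h.1)
  have g1 : (N ／ (B \ K) ＼ ((B' \ K) \ {q})).E = insert q K := by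
    rw [delete_ground, contract_ground]
    ext z
    simp only [mem_sdiff, hum, mem_insert_iff, mem_singleton_iff]
    constructor
    · tauto
    · rintro (rfl | hz)
      · tauto
      · have := (hum z).1 (hKE hz)
        tauto
  have g2 : (N ／ (B' ∩ K) ＼ ((B ∩ K) \ {p})).E = insert p (N.E \ K) := by
    rw [delete_ground, contract_ground]
    ext z
    simp only [mem_sdiff, hum, mem_inter_iff, mem_insert_iff, mem_singleton_iff]
    constructor
    · tauto
    · rintro (rfl | hz)
      · tauto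
      · tauto
  have k1 : (insert q K).ncard ≤ K.ncard + 1 := Set.ncard_insert_le _ _
  have k2 : (insert p (N.E \ K)).ncard ≤ (N.E \ K).ncard + 1 := Set.ncard_insert_le _ _
  obtain ⟨l1, hl1⟩ := ih (N ／ (B \ K) ＼ ((B' \ K) \ {q})) (contract_delete_isMinor _ _ _)
    (by rw [g1]; omega) (by rw [g1]; exact fK.insert _) (B ∩ K) (insert q (B' ∩ K))
    ((m1 _).2 ⟨⟨b1, Set.disjoint_left.2 fun z h h' => h'.2 h.2⟩,
      Set.disjoint_left.2 fun z h h' => h'.1.2 h.2⟩)
    ((m1 _).2 ⟨⟨bq', by
        rw [Set.disjoint_left]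
        rintro z (rfl | h) h'
        · exact hqB h'.1
        · exact h'.2 h.2⟩, by
        rw [Set.disjoint_left]
        rintro z (rfl | h) h'
        · exact h'.2 rfl
        · exact h'.1.2 h.2⟩)
    (by
      rw [Set.disjoint_left]
      rintro z h (rfl | h')
      · exact hqB h.1
      · exact hdm z h.1 h'.1)
    (by
      rw [g1]
      ext z
      simp only [mem_union, mem_inter_iff, mem_insert_iff]
      constructor
      · tauto
      · rintro (rfl | hz)
        · tauto
        · have := (hum z).1 (hKE hz)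
          tauto)
  obtain ⟨l2, hl2⟩ := ih (N ／ (B' ∩ K) ＼ ((B ∩ K) \ {p})) (contract_delete_isMinor _ _ _)
    (by rw [g2]; omega) (by rw [g2]; exact fL.insert _) (insert p (B \ K)) (B' \ K)
    ((m2 _).2 ⟨⟨bp', by
        rw [Set.disjoint_left]
        rintro z (rfl | h) h'
        · exact hpB' h'.1
        · exact h.2 h'.2⟩, by
        rw [Set.disjoint_left]
        rintro z (rfl | h) h'
        · exact h'.2 rfl
        · exact h.2 h'.1.2⟩)
    ((m2 _).2 ⟨⟨b2, Set.disjoint_left.2 fun z h h' => h.2 h'.2⟩,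
      Set.disjoint_left.2 fun z h h' => h.2 h'.1.2⟩)
    (by
      rw [Set.disjoint_left]
      rintro z (rfl | h) h'
      · exact hpB' h'.1
      · exact hdm z h.1 h'.1)
    (by
      rw [g2]
      ext z
      simp only [mem_union, mem_sdiff, hum, mem_insert_iff]
      tauto)
  have lenp : (insert p (B \ K)).ncard = (B \ K).ncard + 1 :=
    Set.ncard_insert_of_notMem (fun h => h.2 hpK) (fB.subset sdiff_subset)
  exact glue2 hE hK hB hB' hpK hqK hc bq' bp' hl1.len (by rw [hl2.len, lenp]) hl1.e1 hl1.e2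
    hl2.e1 hl2.e2
    (fun a b h => ⟨((m1 _).1 (hl1.w a b h).1).1.1, ((m1 _).1 (hl1.w a b h).2).1.1⟩)
    (fun a b h => ⟨((m2 _).1 (hl2.w a b h).1).1.1, ((m2 _).1 (hl2.w a b h).2).1.1⟩)

/-- the reduction to 3-connected minors -/
theorem reduction (M : Matroid α) (hleaf : ∀ N : Matroid α, N ≤m M → Conn3 N → Ok N) :
    ∀ n, ∀ N : Matroid α, N ≤m M → N.E.ncard = n → Ok N := by
  intro n
  induction n using Nat.strong_induction_on with
  | _ n ih =>
  intro N hN hn
  by_cases hc : Conn3 N
  · exact hleaf N hN hc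
  intro hE B B' hB hB' hd hu
  unfold Conn3 at hc
  push Not at hc
  obtain ⟨K, hKE, h2, h2', hK⟩ := hc
  have hK' : ∀ A A', N.IsBase A → N.IsBase A' → (A ∩ K).ncard ≤ (A' ∩ K).ncard + 1 := by
    intro A A' h h'
    have := hK A A' h h'
    omega
  have ih' : ∀ N' : Matroid α, N' ≤m N → N'.E.ncard < N.E.ncard → Ok N' := fun N' h h' =>
    ih N'.E.ncard (hn ▸ h') N' (h.trans hN) rfl
  have h1 := hK' B B' hB hB'
  have h1' := hK' B' B hB' hB
  rcases lt_trichotomy (B ∩ K).ncard (B' ∩ K).ncard with hlt | heq | hgt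
  · -- pass to the complement
    have key : ∀ A, N.IsBase A → (A ∩ (N.E \ K)).ncard + (A ∩ K).ncard = A.ncard := by
      intro A hA
      have := card_split (K := K) (hE.subset hA.subset_ground)
      have he : A ∩ (N.E \ K) = A \ K := by
        ext z
        simp only [mem_inter_iff, mem_sdiff]
        have hz : z ∈ A → z ∈ N.E := fun h => hA.subset_ground h
        tauto
      rw [he]
      omega
    have hLL : N.E \ (N.E \ K) = K := by
      rw [Set.sdiff_sdiff_right_self, inter_eq_right]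
      exact hKE
    refine step2 (K := N.E \ K) hE hB hB' hd hu sdiff_subset ?_ h2' (by rw [hLL]; exact h2) ?_ ih'
    · intro A A' hA hA'
      have e1 := key A hA
      have e2 := key A' hA'
      have e3 := hA.ncard_eq_ncard_of_isBase hA'
      have e4 := hK' A' A hA' hA
      omega
    · have e1 := key B hB
      have e2 := key B' hB'
      have e3 := hB.ncard_eq_ncard_of_isBase hB'
      omega
  · exact step1 hE hB hB' hd hu hKE hK' h2 h2' heq ih'
  · exact step2 hE hB hB' hd hu hKE hK' h2 h2' (by omega) ih'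

end Pool.Agent.H11Sum
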