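import Mathlib

set_option autoImplicit false

namespace Pool.Agent.H11Sum

open Set

variable {α : Type*}

/-- first components of a list of pairs -/
def fs (l : List (α × α)) : Set α := {x | ∃ p ∈ l, p.1 = x}

/-- second components of a list of pairs -/
def ss (l : List (α × α)) : Set α := {x | ∃ p ∈ l, p.2 = x}

@[simp] theorem fs_append (l m : List (α × α)) : fs (l ++ m) = fs l ∪ fs m := by
  ext x
  simp only [fs, List.mem_append, mem_setOf_eq, mem_union, or_and_right, exists_or]

@[simp] theorem ss_append (l m : List (α × α)) : ss (l ++ m) = ss l ∪ ss m := by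
  ext x
  simp only [ss, List.mem_append, mem_setOf_eq, mem_union, or_and_right, exists_or]

@[simp] theorem fs_cons (p : α × α) (l : List (α × α)) : fs (p :: l) = insert p.1 (fs l) := by
  ext x
  simp only [fs, List.mem_cons, mem_setOf_eq, mem_insert_iff, or_and_right, exists_or,
    exists_eq_left]
  tauto

@[simp] theorem ss_cons (p : α × α) (l : List (α × α)) : ss (p :: l) = insert p.2 (ss l) := by
  ext x
  simp only [ss, List.mem_cons, mem_setOf_eq, mem_insert_iff, or_and_right, exists_or,
    exists_eq_left]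
  tauto

@[simp] theorem fs_nil : fs ([] : List (α × α)) = ∅ := by
  ext x
  simp [fs]

@[simp] theorem ss_nil : ss ([] : List (α × α)) = ∅ := by
  ext x
  simp [ss]

/-- a serial exchange of the bases `B`, `B'` as a list of pairs -/
structure Good (N : Matroid α) (B B' : Set α) (l : List (α × α)) : Prop where
  len : l.length = B.ncard
  e1 : fs l = B
  e2 : ss l = B'
  w : ∀ l1 l2, l = l1 ++ l2 → N.IsBase (ss l1 ∪ fs l2) ∧ N.IsBase (fs l1 ∪ ss l2)

/-- 3-connected, in the sense needed -/
def Conn3 (N : Matroid α) : Prop :=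
  ∀ K ⊆ N.E, 2 ≤ K.ncard → 2 ≤ (N.E \ K).ncard →
    ∃ A A', N.IsBase A ∧ N.IsBase A' ∧ (A' ∩ K).ncard + 2 ≤ (A ∩ K).ncard

end Pool.Agent.H11Sum
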