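import Pool.Agent.H11Sum.Unsplit

set_option autoImplicit false

namespace Pool.Agent.H11Sum

open Set Matroid

variable {α : Type*}

/-- no tight set of `M` (a set `T` in the ground set with `|T| = 2 r(T)` if `M` has complementary
bases) splits the ground set of `N` -/
def Unsplit (M N : Matroid α) : Prop :=
  ∀ T ⊆ M.E, (∀ X, M.IsBase X → 2 * (X ∩ T).ncard ≤ T.ncard) → N.E ⊆ T ∨ Disjoint N.E T

theorem span_of_tight {N : Matroid α} (hE : N.E.Finite) {B B' T : Set α} (hB : N.IsBase B)
    (hB' : N.IsBase B') (hd : Disjoint B B') (hu : B ∪ B' = N.E) (hT : T ⊆ N.E)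
    (h : ∀ X, N.IsBase X → 2 * (X ∩ T).ncard ≤ T.ncard) : T ⊆ N.closure (B ∩ T) := by
  intro z hz
  by_contra hcl
  have fT : T.Finite := hE.subset hT
  have hi : N.Indep (B ∩ T) := hB.indep.subset inter_subset_left
  rw [hi.notMem_closure_iff (hT hz)] at hcl
  obtain ⟨h1, h2⟩ := hcl
  obtain ⟨X, hX, hs⟩ := h1.exists_isBase_superset
  have h3 := h X hX
  have h4 : (insert z (B ∩ T)).ncard ≤ (X ∩ T).ncard := by
    refine Set.ncard_le_ncard ?_ (fT.subset inter_subset_right)
    rintro w (rfl | hw)
    · exact ⟨hs (Or.inl rfl), hz⟩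
    · exact ⟨hs (Or.inr hw), hw.2⟩
  rw [Set.ncard_insert_of_notMem h2 (fT.subset inter_subset_right)] at h4
  have hsum : (B ∩ T).ncard + (B' ∩ T).ncard = T.ncard := by
    rw [← Set.ncard_union_eq ((hd.mono inter_subset_left inter_subset_left))
      (fT.subset inter_subset_right) (fT.subset inter_subset_right), ← union_inter_distrib_right,
      hu, inter_eq_right.2 hT]
  have h5 := h B' hB'
  omega

/-- minors of one minor; the case: every 3-connected piece has rank at most seven or satisfies the conclusion -/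
theorem core9
    (H7 : ∀ (M : Matroid α) {r : ℕ}, r ≤ 7 → ∀ (b b' : Fin r → α), Function.Injective b →
      Function.Injective b' → M.IsBase (Set.range b) → M.IsBase (Set.range b') →
      ∃ σ σ' : Equiv.Perm (Fin r), ∀ i : Fin (r + r),
        M.IsBase (Gab7c47.block (b ∘ σ) (b' ∘ σ') i))
    (M : Matroid α) {r : ℕ} (b b' : Fin r → α)
    (hb : Function.Injective b) (hb' : Function.Injective b')
    (hB : M.IsBase (Set.range b)) (hB' : M.IsBase (Set.range b'))
    (h : ∀ N : Matroid α,
      N ≤m (M ↾ (Set.range b ∪ Set.range b')) ／ (Set.range b ∩ Set.range b') → Conn3 N →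
      Dense N → Unsplit ((M ↾ (Set.range b ∪ Set.range b')) ／ (Set.range b ∩ Set.range b')) N →
      ∀ A A', N.IsBase A → N.IsBase A' → Disjoint A A' → A ∪ A' = N.E →
        A.ncard ≤ 7 ∨ Cyclic N A A') :
    ∃ σ σ' : Equiv.Perm (Fin r), ∀ i : Fin (r + r),
      M.IsBase (Gab7c47.block (b ∘ σ) (b' ∘ σ') i) := by
  set B := Set.range b with hBdef
  set B' := Set.range b' with hBdef'
  have fB : B.Finite := Set.finite_range b
  have fB' : B'.Finite := Set.finite_range b'
  have hBE := hB.subset_ground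
  have hBE' := hB'.subset_ground
  have b1 : M.IsBase ((B \ B') ∪ (B ∩ B')) := by
    rw [union_comm, inter_union_sdiff]
    exact hB
  have b2 : M.IsBase ((B' \ B) ∪ (B ∩ B')) := by
    rw [union_comm, inter_comm, inter_union_sdiff]
    exact hB'
  have m := minor_base (N := M) (C := B ∩ B') (D := M.E \ (B ∪ B')) (X0 := B \ B') b1
    (Set.disjoint_left.2 fun z h h' => h.2 h'.2)
    (Set.disjoint_left.2 fun z h h' => h'.2 (Or.inl h.1))
    sdiff_subset
    (Set.disjoint_left.2 fun z h h' => h'.2 (Or.inl h.1))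
  have hE : (M ／ (B ∩ B') ＼ (M.E \ (B ∪ B'))).E = (B \ B') ∪ (B' \ B) := by
    rw [delete_ground, contract_ground]
    ext z
    simp only [mem_sdiff, mem_union, mem_inter_iff]
    have h1 : z ∈ B → z ∈ M.E := fun h => hBE h
    have h2 : z ∈ B' → z ∈ M.E := fun h => hBE' h
    tauto
  have he : (M ↾ (B ∪ B')) ／ (B ∩ B') = M ／ (B ∩ B') ＼ (M.E \ (B ∪ B')) := by
    rw [restrict_contract_eq_contract_restrict M
      (inter_subset_left.trans (subset_union_left (t := B'))), delete_eq_restrict,
      contract_ground]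
    congr 1
    ext z
    have h1 : z ∈ B → z ∈ M.E := fun h => hBE h
    have h2 : z ∈ B' → z ∈ M.E := fun h => hBE' h
    simp only [mem_sdiff, mem_union, mem_inter_iff]
    tauto
  rw [he] at h
  have q1 := (m (B \ B')).2 ⟨⟨b1, Set.disjoint_left.2 fun z h h' => h.2 h'.2⟩,
      Set.disjoint_left.2 fun z h h' => h'.2 (Or.inl h.1)⟩
  have q2 := (m (B' \ B)).2 ⟨⟨b2, Set.disjoint_left.2 fun z h h' => h.2 h'.1⟩,
      Set.disjoint_left.2 fun z h h' => h'.2 (Or.inr h.1)⟩
  have hdd : Disjoint (B \ B') (B' \ B) := Set.disjoint_left.2 fun z h h' => h.2 h'.1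
  have hEf : (M ／ (B ∩ B') ＼ (M.E \ (B ∪ B'))).E.Finite := by
    rw [hE]
    exact (fB.subset sdiff_subset).union (fB'.subset sdiff_subset)
  obtain ⟨l, hl⟩ := unsplit (M ／ (B ∩ B') ＼ (M.E \ (B ∪ B')))
    {T | T ⊆ (M ／ (B ∩ B') ＼ (M.E \ (B ∪ B'))).E ∧
      ∀ X, (M ／ (B ∩ B') ＼ (M.E \ (B ∪ B'))).IsBase X → 2 * (X ∩ T).ncard ≤ T.ncard}
    (by
      intro N hN hT hc hDe hfin A A' hA hA' hd hu
      rcases h N hN hc hDe (fun T h1 h2 => hT T ⟨h1, h2⟩) A A' hA hA' hd hu with h7 | ⟨s, u, v, hu1, -, rfl, rfl, huv⟩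
      swap
      · exact ⟨_, H56Gab.to_list N u v hu1 hA hA' huv⟩
      have fA : A.Finite := hfin.subset hA.subset_ground
      have fA' : A'.Finite := hfin.subset hA'.subset_ground
      have hcard := hA.ncard_eq_ncard_of_isBase hA'
      obtain ⟨e, he1, he2⟩ : ∃ e : Fin A.ncard → α, Function.Injective e ∧ Set.range e = A := by
        have := fA.to_subtype
        have hn : Nat.card A = A.ncard := Nat.card_coe_set_eq A
        let g := (Finite.equivFinOfCardEq hn).symm
        refine ⟨fun i => (g i : α), Subtype.val_injective.comp g.injective, ?_⟩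
        ext x
        constructor
        · rintro ⟨i, rfl⟩
          exact (g i).2
        · intro hx
          exact ⟨g.symm ⟨x, hx⟩, by simp⟩
      obtain ⟨e', he1', he2'⟩ :
          ∃ e : Fin A.ncard → α, Function.Injective e ∧ Set.range e = A' := by
        have := fA'.to_subtype
        have hn : Nat.card A' = A.ncard := by rw [Nat.card_coe_set_eq A', hcard]
        let g := (Finite.equivFinOfCardEq hn).symm
        refine ⟨fun i => (g i : α), Subtype.val_injective.comp g.injective, ?_⟩
        ext x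
        constructor
        · rintro ⟨i, rfl⟩
          exact (g i).2
        · intro hx
          exact ⟨g.symm ⟨x, hx⟩, by simp⟩
      obtain ⟨σ, σ', hσ⟩ := H7 N h7 e e' he1 he1' (by rw [he2]; exact hA) (by rw [he2']; exact hA')
      have r1 : Set.range (e ∘ σ) = A := by
        rw [EquivLike.range_comp, he2]
      have r2 : Set.range (e' ∘ σ') = A' := by
        rw [EquivLike.range_comp, he2']
      have := H56Gab.to_list N (e ∘ σ) (e' ∘ σ') (he1.comp σ.injective)
        (by rw [r1]; exact hA) (by rw [r2]; exact hA') hσ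
      rw [r1, r2] at this
      exact ⟨_, this⟩)
    _ _ IsMinor.refl hEf rfl (B \ B') (B' \ B) q1 q2 hdd hE.symm
    (by
      rintro T ⟨hT1, hT2⟩
      constructor
      · exact inter_subset_left.trans (span_of_tight hEf q1 q2 hdd hE.symm hT1 hT2)
      · exact inter_subset_left.trans (span_of_tight hEf q2 q1 hdd.symm
          (by rw [union_comm]; exact hE.symm) hT1 hT2))
  obtain ⟨D, d1, d2, d3, d4⟩ := diag (fB.subset (inter_subset_left (t := B')))
  refine H56Gab.of_list M b b' hb hb' (l ++ D) ⟨?_, ?_, ?_, ?_⟩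
  · rw [List.length_append, hl.len, d1, ← hBdef, ← card_split (K := B') fB]
    omega
  · rw [fs_append, hl.e1, d2, union_comm, inter_union_sdiff]
  · rw [ss_append, hl.e2, d3, union_comm, inter_comm, inter_union_sdiff]
  · intro x y hxy
    obtain ⟨x1, x2, y1, y2, ha, hb, rfl, rfl, -⟩ := split2 hxy
    obtain ⟨p1, p2⟩ := hl.w x1 x2 ha
    have q1 := ((m _).1 p1).1.1
    have q2 := ((m _).1 p2).1.1
    have f1 : fs y1 = ss y1 := fs_eq_ss fun p hp => d4 p (by rw [hb]; exact List.mem_append_left _ hp)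
    have f2 : fs y2 = ss y2 := fs_eq_ss fun p hp => d4 p (by rw [hb]; exact List.mem_append_right _ hp)
    have hD : B ∩ B' = ss y1 ∪ ss y2 := by rw [← d3, hb, ss_append]
    rw [hD] at q1 q2
    constructor
    · convert q1 using 1
      rw [ss_append, fs_append, f2]
      ext z
      simp only [mem_union]
      tauto
    · convert q2 using 1
      rw [ss_append, fs_append, f1]
      ext z
      simp only [mem_union]
      tauto

/-- the same with lists of the two bases of the 3-connected minors of rank at least eight -/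
theorem final9
    (H7 : ∀ (M : Matroid α) {r : ℕ}, r ≤ 7 → ∀ (b b' : Fin r → α), Function.Injective b →
      Function.Injective b' → M.IsBase (Set.range b) → M.IsBase (Set.range b') →
      ∃ σ σ' : Equiv.Perm (Fin r), ∀ i : Fin (r + r),
        M.IsBase (Gab7c47.block (b ∘ σ) (b' ∘ σ') i))
    (M : Matroid α) {r : ℕ} (b b' : Fin r → α)
    (hb : Function.Injective b) (hb' : Function.Injective b')
    (hB : M.IsBase (Set.range b)) (hB' : M.IsBase (Set.range b'))
    (h : ∀ N : Matroid α,
      N ≤m (M ↾ (Set.range b ∪ Set.range b')) ／ (Set.range b ∩ Set.range b') → Conn3 N →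
      Dense N → Unsplit ((M ↾ (Set.range b ∪ Set.range b')) ／ (Set.range b ∩ Set.range b')) N →
      ∀ (n : ℕ) (a a' : Fin n → α), 8 ≤ n → Function.Injective a → Function.Injective a' →
      N.IsBase (Set.range a) → N.IsBase (Set.range a') →
      Disjoint (Set.range a) (Set.range a') → Set.range a ∪ Set.range a' = N.E →
      ∃ σ σ' : Equiv.Perm (Fin n), ∀ i : Fin (n + n),
        N.IsBase (Gab7c47.block (a ∘ σ) (a' ∘ σ') i)) :
    ∃ σ σ' : Equiv.Perm (Fin r), ∀ i : Fin (r + r),
      M.IsBase (Gab7c47.block (b ∘ σ) (b' ∘ σ') i) := by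
  refine core9 H7 M b b' hb hb' hB hB' fun N h1 h3 hD hU A A' h4 h5 h6 h7 => ?_
  rcases Nat.lt_or_ge 7 A.ncard with h8 | h8
  swap
  · exact Or.inl h8
  right
  have fA : A.Finite := Set.finite_of_ncard_pos (by omega)
  have hcard := h4.ncard_eq_ncard_of_isBase h5
  have fA' : A'.Finite := Set.finite_of_ncard_pos (by omega)
  obtain ⟨e, he1, he2⟩ : ∃ e : Fin A.ncard → α, Function.Injective e ∧ Set.range e = A := by
    have := fA.to_subtype
    have hn : Nat.card A = A.ncard := Nat.card_coe_set_eq A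
    let g := (Finite.equivFinOfCardEq hn).symm
    refine ⟨fun i => (g i : α), Subtype.val_injective.comp g.injective, ?_⟩
    ext x
    constructor
    · rintro ⟨i, rfl⟩
      exact (g i).2
    · intro hx
      exact ⟨g.symm ⟨x, hx⟩, by simp⟩
  obtain ⟨e', he1', he2'⟩ : ∃ e : Fin A.ncard → α, Function.Injective e ∧ Set.range e = A' := by
    have := fA'.to_subtype
    have hn : Nat.card A' = A.ncard := by rw [Nat.card_coe_set_eq A', hcard]
    let g := (Finite.equivFinOfCardEq hn).symm
    refine ⟨fun i => (g i : α), Subtype.val_injective.comp g.injective, ?_⟩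
    ext x
    constructor
    · rintro ⟨i, rfl⟩
      exact (g i).2
    · intro hx
      exact ⟨g.symm ⟨x, hx⟩, by simp⟩
  obtain ⟨σ, σ', hσ⟩ := h N h1 h3 hD hU A.ncard e e' h8 he1 he1' (by rw [he2]; exact h4)
    (by rw [he2']; exact h5) (by rw [he2, he2']; exact h6) (by rw [he2, he2']; exact h7)
  exact ⟨A.ncard, e ∘ σ, e' ∘ σ', he1.comp σ.injective, he1'.comp σ'.injective,
    by rw [EquivLike.range_comp, he2], by rw [EquivLike.range_comp, he2'], hσ⟩

end Pool.Agent.H11Sum
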