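import Pool.Agent.H11Sum.Defs

set_option autoImplicit false

namespace Pool.Agent.H11Sum

open Set Matroid

variable {α : Type*}

theorem card_split {S K : Set α} (hS : S.Finite) : (S ∩ K).ncard + (S \ K).ncard = S.ncard :=
  Set.ncard_inter_add_ncard_sdiff_eq_ncard S K hS

/-- swapping parts, in the case of a maximal intersection -/
theorem swapMax {N : Matroid α} (hE : N.E.Finite) {K A A' : Set α}
    (hmax : ∀ A'', N.IsBase A'' → (A'' ∩ K).ncard ≤ (A ∩ K).ncard)
    (hA : N.IsBase A) (hA' : N.IsBase A') (h : (A ∩ K).ncard = (A' ∩ K).ncard) :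
    N.IsBase ((A ∩ K) ∪ (A' \ K)) := by
  obtain ⟨C, hC, h1, h2⟩ :=
    (hA.indep.subset (inter_subset_left (t := K))).exists_isBase_subset_union_isBase hA'
  have fC : C.Finite := hE.subset hC.subset_ground
  have fA : A.Finite := hE.subset hA.subset_ground
  have fA' : A'.Finite := hE.subset hA'.subset_ground
  have hCK : C ∩ K = A ∩ K := by
    symm
    refine Set.eq_of_subset_of_ncard_le (subset_inter h1 inter_subset_right) (hmax C hC)
      (fC.subset inter_subset_left)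
  have hsub : C \ K ⊆ A' \ K := by
    rintro x ⟨hx, hxK⟩
    rcases h2 hx with h3 | h3
    · exact absurd h3.2 hxK
    · exact ⟨h3, hxK⟩
  have c1 := card_split (K := K) fC
  have c2 := card_split (K := K) fA'
  have c3 := hC.ncard_eq_ncard_of_isBase hA'
  have hCD : C \ K = A' \ K := by
    refine Set.eq_of_subset_of_ncard_le hsub ?_ (fA'.subset sdiff_subset)
    rw [hCK] at c1
    omega
  rw [← hCK, ← hCD, inter_union_sdiff]
  exact hC

/-- swapping parts, in the case of a minimal intersection -/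
theorem swapMin {N : Matroid α} (hE : N.E.Finite) {K A A' : Set α}
    (hmin : ∀ A'', N.IsBase A'' → (A ∩ K).ncard ≤ (A'' ∩ K).ncard)
    (hA : N.IsBase A) (hA' : N.IsBase A') (h : (A ∩ K).ncard = (A' ∩ K).ncard) :
    N.IsBase ((A ∩ K) ∪ (A' \ K)) := by
  obtain ⟨C, hC, h1, h2⟩ :=
    (hA'.indep.subset (sdiff_subset (t := K))).exists_isBase_subset_union_isBase hA
  have fC : C.Finite := hE.subset hC.subset_ground
  have fA : A.Finite := hE.subset hA.subset_ground
  have fA' : A'.Finite := hE.subset hA'.subset_ground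
  have hCK : C ∩ K = A ∩ K := by
    refine Set.eq_of_subset_of_ncard_le ?_ (hmin C hC) (fA.subset inter_subset_left)
    rintro x ⟨hx, hxK⟩
    rcases h2 hx with h3 | h3
    · exact absurd hxK h3.2
    · exact ⟨h3, hxK⟩
  have hsub : A' \ K ⊆ C \ K := fun x hx => ⟨h1 hx, hx.2⟩
  have c1 := card_split (K := K) fC
  have c2 := card_split (K := K) fA'
  have c3 := hC.ncard_eq_ncard_of_isBase hA'
  have hCD : A' \ K = C \ K := by
    refine Set.eq_of_subset_of_ncard_le hsub ?_ (fC.subset sdiff_subset)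
    rw [hCK] at c1
    omega
  rw [← hCK, hCD, inter_union_sdiff]
  exact hC

theorem swap {N : Matroid α} (hE : N.E.Finite) {K A A' : Set α}
    (hK : ∀ A A', N.IsBase A → N.IsBase A' → (A ∩ K).ncard ≤ (A' ∩ K).ncard + 1)
    (hA : N.IsBase A) (hA' : N.IsBase A') (h : (A ∩ K).ncard = (A' ∩ K).ncard) :
    N.IsBase ((A ∩ K) ∪ (A' \ K)) := by
  by_cases hmax : ∀ A'', N.IsBase A'' → (A'' ∩ K).ncard ≤ (A ∩ K).ncard
  · exact swapMax hE hmax hA hA' h
  · push Not at hmax
    obtain ⟨A0, h0, h1⟩ := hmax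
    refine swapMin hE (fun A'' h'' => ?_) hA hA' h
    have := hK A0 A'' h0 h''
    omega

/-- gluing of windows -/
theorem glueW {N : Matroid α} (hE : N.E.Finite) {K W1 W2 X Y : Set α}
    (hK : ∀ A A', N.IsBase A → N.IsBase A' → (A ∩ K).ncard ≤ (A' ∩ K).ncard + 1)
    (hW1 : W1 ⊆ K) (hX : X ⊆ K) (hW2 : Disjoint W2 K) (hY : Disjoint Y K)
    (h1 : N.IsBase (W1 ∪ Y)) (h2 : N.IsBase (X ∪ W2)) (h3 : N.IsBase (X ∪ Y)) :
    N.IsBase (W1 ∪ W2) := by
  have i1 : (W1 ∪ Y) ∩ K = W1 := by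
    rw [union_inter_distrib_right, inter_eq_left.2 hW1, hY.inter_eq, union_empty]
  have i2 : (X ∪ W2) ∩ K = X := by
    rw [union_inter_distrib_right, inter_eq_left.2 hX, hW2.inter_eq, union_empty]
  have i3 : (X ∪ Y) ∩ K = X := by
    rw [union_inter_distrib_right, inter_eq_left.2 hX, hY.inter_eq, union_empty]
  have d1 : (W1 ∪ Y) \ K = Y := by
    rw [union_sdiff_distrib, sdiff_eq_empty.2 hW1, hY.sdiff_eq_left, empty_union]
  have d2 : (X ∪ W2) \ K = W2 := by
    rw [union_sdiff_distrib, sdiff_eq_empty.2 hX, hW2.sdiff_eq_left, empty_union]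
  have d3 : (X ∪ Y) \ K = Y := by
    rw [union_sdiff_distrib, sdiff_eq_empty.2 hX, hY.sdiff_eq_left, empty_union]
  have f1 : (W1 ∪ Y).Finite := hE.subset h1.subset_ground
  have f3 : (X ∪ Y).Finite := hE.subset h3.subset_ground
  have c1 := card_split (K := K) f1
  have c3 := card_split (K := K) f3
  have c4 := h1.ncard_eq_ncard_of_isBase h3
  rw [i1, d1] at c1
  rw [i3, d3] at c3
  have := swap hE hK h1 h2 (by rw [i1, i2]; omega)
  rwa [i1, d2] at this

/-- the bases of a minor -/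
theorem minor_base {N : Matroid α} {C D X0 : Set α} (h0 : N.IsBase (X0 ∪ C))
    (hC : Disjoint X0 C) (hD : Disjoint X0 D) (hDE : D ⊆ N.E) (hCD : Disjoint C D) (X : Set α) :
    (N ／ C ＼ D).IsBase X ↔ (N.IsBase (X ∪ C) ∧ Disjoint X C) ∧ Disjoint X D := by
  have hCi : N.Indep C := h0.indep.subset subset_union_right
  have h1 : (N ／ C).IsBase X0 := hCi.contract_isBase_iff.2 ⟨h0, hC⟩
  have hco : (N ／ C).Coindep D := by
    rw [coindep_iff_exists']
    refine ⟨⟨X0, h1, fun x hx => ⟨h1.subset_ground hx, fun hxD => ?_⟩⟩, ?_⟩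
    · exact (Set.disjoint_left.1 hD) hx hxD
    · rw [contract_ground]
      exact fun x hx => ⟨hDE hx, fun hxC => (Set.disjoint_left.1 hCD) hxC hx⟩
  rw [hco.delete_isBase_iff, hCi.contract_isBase_iff]

theorem split2 {β : Type*} {a b c d : List β} (h : a ++ b = c ++ d) :
    ∃ s1 s2 t1 t2, a = s1 ++ s2 ∧ b = t1 ++ t2 ∧ c = s1 ++ t1 ∧ d = s2 ++ t2 ∧
      (s2 = [] ∨ t1 = []) := by
  rcases List.append_eq_append_iff.1 h with ⟨e, h1, h2⟩ | ⟨e, h1, h2⟩
  · exact ⟨a, [], e, d, by simp, h2, h1, by simp, Or.inl rfl⟩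
  · exact ⟨c, e, [], b, h1, by simp, by simp, h2, Or.inr rfl⟩

end Pool.Agent.H11Sum
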