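import Pool.Agent.H11Sum.Glue

set_option autoImplicit false

namespace Pool.Agent.H11Sum

open Set Matroid

variable {α : Type*}

theorem fs_finite (l : List (α × α)) : (fs l).Finite := by
  have : fs l = (fun p : α × α => p.1) '' {p | p ∈ l} := by
    ext x
    simp [fs]
  rw [this]
  exact (List.finite_toSet l).image _

theorem glue1 {N : Matroid α} (hE : N.E.Finite) {B B' K : Set α}
    (hK : ∀ A A', N.IsBase A → N.IsBase A' → (A ∩ K).ncard ≤ (A' ∩ K).ncard + 1)
    (hB : N.IsBase B) {l1 l2 : List (α × α)}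
    (len1 : l1.length = (B ∩ K).ncard) (len2 : l2.length = (B \ K).ncard)
    (f1 : fs l1 = B ∩ K) (s1 : ss l1 = B' ∩ K) (f2 : fs l2 = B \ K) (s2 : ss l2 = B' \ K)
    (w1 : ∀ a b, l1 = a ++ b →
      N.IsBase ((ss a ∪ fs b) ∪ (B \ K)) ∧ N.IsBase ((fs a ∪ ss b) ∪ (B \ K)))
    (w2 : ∀ a b, l2 = a ++ b →
      N.IsBase ((ss a ∪ fs b) ∪ (B ∩ K)) ∧ N.IsBase ((fs a ∪ ss b) ∪ (B ∩ K))) :
    Good N B B' (l1 ++ l2) := by
  have fB : B.Finite := hE.subset hB.subset_ground
  refine ⟨?_, ?_, ?_, ?_⟩
  · rw [List.length_append, len1, len2, card_split fB]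
  · rw [fs_append, f1, f2, inter_union_sdiff]
  · rw [ss_append, s1, s2, inter_union_sdiff]
  · intro c d hcd
    obtain ⟨x1, x2, y1, y2, ha, hb, rfl, rfl, -⟩ := split2 hcd
    have hx1 : fs x1 ∪ fs x2 ⊆ K := by
      rw [← fs_append, ← ha, f1]
      exact inter_subset_right
    have hx2 : ss x1 ∪ ss x2 ⊆ K := by
      rw [← ss_append, ← ha, s1]
      exact inter_subset_right
    have hy1 : Disjoint (fs y1 ∪ fs y2) K := by
      rw [← fs_append, ← hb, f2]
      exact disjoint_sdiff_left
    have hy2 : Disjoint (ss y1 ∪ ss y2) K := by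
      rw [← ss_append, ← hb, s2]
      exact disjoint_sdiff_left
    rw [union_subset_iff] at hx1 hx2
    rw [disjoint_union_left] at hy1 hy2
    have hBB : N.IsBase ((B ∩ K) ∪ (B \ K)) := by
      rw [inter_union_sdiff]
      exact hB
    obtain ⟨p1, p2⟩ := w1 x1 x2 ha
    obtain ⟨q1, q2⟩ := w2 y1 y2 hb
    rw [union_comm] at q1 q2
    constructor
    · have := glueW (W1 := ss x1 ∪ fs x2) (W2 := ss y1 ∪ fs y2) hE hK
        (union_subset hx2.1 hx1.2) inter_subset_right (disjoint_union_left.2 ⟨hy2.1, hy1.2⟩)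
        disjoint_sdiff_left p1 q1 hBB
      rw [ss_append, fs_append]
      convert this using 1
      ext z
      simp only [mem_union]
      tauto
    · have := glueW (W1 := fs x1 ∪ ss x2) (W2 := fs y1 ∪ ss y2) hE hK
        (union_subset hx1.1 hx2.2) inter_subset_right (disjoint_union_left.2 ⟨hy1.1, hy2.2⟩)
        disjoint_sdiff_left p2 q2 hBB
      rw [ss_append, fs_append]
      convert this using 1
      ext z
      simp only [mem_union]
      tauto

theorem glueE {N : Matroid α} (hE : N.E.Finite) {K W1 W2 X Y Z P1 P2 P3 : Set α}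
    (hK : ∀ A A', N.IsBase A → N.IsBase A' → (A ∩ K).ncard ≤ (A' ∩ K).ncard + 1)
    (h1 : N.IsBase P1) (h2 : N.IsBase P2) (h3 : N.IsBase P3)
    (hW1 : ∀ z ∈ W1, z ∈ K) (hX : ∀ z ∈ X, z ∈ K) (hW2 : ∀ z ∈ W2, z ∉ K) (hY : ∀ z ∈ Y, z ∉ K)
    (e1 : P1 = W1 ∪ Y) (e2 : P2 = X ∪ W2) (e3 : P3 = X ∪ Y) (eZ : Z = W1 ∪ W2) :
    N.IsBase Z := by
  subst e1 e2 e3 eZ
  exact glueW hE hK hW1 hX (Set.disjoint_left.2 hW2) (Set.disjoint_left.2 hY) h1 h2 h3

theorem ncard_ss_le (l : List (α × α)) : (ss l).ncard ≤ l.length := by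
  induction l with
  | nil => simp
  | cons p l ih =>
    rw [ss_cons, List.length_cons]
    exact (Set.ncard_insert_le _ _).trans (by omega)

theorem ncard_fs_le (l : List (α × α)) : (fs l).ncard ≤ l.length := by
  induction l with
  | nil => simp
  | cons p l ih =>
    rw [fs_cons, List.length_cons]
    exact (Set.ncard_insert_le _ _).trans (by omega)

theorem glue2 {N : Matroid α} (hE : N.E.Finite) {B B' K : Set α} {p q : α}
    (hK : ∀ A A', N.IsBase A → N.IsBase A' → (A ∩ K).ncard ≤ (A' ∩ K).ncard + 1)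
    (hB : N.IsBase B) (hB' : N.IsBase B') (hpK : p ∈ K) (hqK : q ∉ K)
    (hc : (B ∩ K).ncard = (B' ∩ K).ncard + 1)
    (hq : N.IsBase (insert q (B' ∩ K) ∪ (B \ K)))
    (hp : N.IsBase (insert p (B \ K) ∪ (B' ∩ K)))
    {l1 l2 : List (α × α)}
    (len1 : l1.length = (B ∩ K).ncard) (len2 : l2.length = (B \ K).ncard + 1)
    (f1 : fs l1 = B ∩ K) (s1 : ss l1 = insert q (B' ∩ K))
    (f2 : fs l2 = insert p (B \ K)) (s2 : ss l2 = B' \ K)
    (w1 : ∀ a b, l1 = a ++ b →
      N.IsBase ((ss a ∪ fs b) ∪ (B \ K)) ∧ N.IsBase ((fs a ∪ ss b) ∪ (B \ K)))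
    (w2 : ∀ a b, l2 = a ++ b →
      N.IsBase ((ss a ∪ fs b) ∪ (B' ∩ K)) ∧ N.IsBase ((fs a ∪ ss b) ∪ (B' ∩ K))) :
    ∃ l, Good N B B' l := by
  have fB : B.Finite := hE.subset hB.subset_ground
  have fB' : B'.Finite := hE.subset hB'.subset_ground
  have hq1 : q ∈ ss l1 := by rw [s1]; exact mem_insert _ _
  have hp1 : p ∈ fs l2 := by rw [f2]; exact mem_insert _ _
  obtain ⟨⟨x, q'⟩, hxq, hq'⟩ := hq1
  obtain ⟨⟨p', y⟩, hpy, hp'⟩ := hp1
  simp only at hq' hp'
  rw [hq'] at hxq
  rw [hp'] at hpy
  clear hq' hp' q' p'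
  obtain ⟨a1, a2, ha⟩ := List.append_of_mem hxq
  obtain ⟨b1, b2, hb⟩ := List.append_of_mem hpy
  subst ha hb
  have hqn : q ∉ ss a1 ∪ ss a2 := by
    intro hmem
    have h1 : ss (a1 ++ (x, q) :: a2) = ss (a1 ++ a2) := by
      rw [ss_append, ss_append, ss_cons]
      ext z
      simp only [mem_union, mem_insert_iff]
      constructor
      · rintro (h | rfl | h)
        · exact Or.inl h
        · exact hmem
        · exact Or.inr h
      · rintro (h | h)
        · exact Or.inl h
        · exact Or.inr (Or.inr h)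
    have h2 := ncard_ss_le (a1 ++ a2)
    rw [← h1, s1, Set.ncard_insert_of_notMem (fun h => hqK h.2) (fB'.subset inter_subset_left)] at h2
    rw [List.length_append] at h2
    rw [List.length_append, List.length_cons] at len1
    omega
  have hpn : p ∉ fs b1 ∪ fs b2 := by
    intro hmem
    have h1 : fs (b1 ++ (p, y) :: b2) = fs (b1 ++ b2) := by
      rw [fs_append, fs_append, fs_cons]
      ext z
      simp only [mem_union, mem_insert_iff]
      constructor
      · rintro (h | rfl | h)
        · exact Or.inl h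
        · exact hmem
        · exact Or.inr h
      · rintro (h | h)
        · exact Or.inl h
        · exact Or.inr (Or.inr h)
    have h2 := ncard_fs_le (b1 ++ b2)
    rw [← h1, f2, Set.ncard_insert_of_notMem (fun h => h.2 hpK) (fB.subset sdiff_subset)] at h2
    rw [List.length_append] at h2
    rw [List.length_append, List.length_cons] at len2
    omega
  simp only [ss_append, fs_append, ss_cons, fs_cons] at f1 s1 f2 s2
  rw [mem_union, not_or] at hqn hpn
  have Sa : ss a1 ∪ ss a2 = B' ∩ K := by
    ext z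
    have h := Set.ext_iff.1 s1 z
    simp only [mem_union, mem_insert_iff, mem_inter_iff] at h ⊢
    constructor
    · intro hz
      rcases h.1 (by tauto) with h3 | h3
      · subst h3
        exfalso
        tauto
      · exact h3
    · intro hz
      rcases h.2 (Or.inr hz) with h3 | h3 | h3
      · exact Or.inl h3
      · subst h3
        exact absurd hz.2 hqK
      · exact Or.inr h3
  have Fb : fs b1 ∪ fs b2 = B \ K := by
    ext z
    have h := Set.ext_iff.1 f2 z
    simp only [mem_union, mem_insert_iff, mem_sdiff] at h ⊢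
    constructor
    · intro hz
      rcases h.1 (by tauto) with h3 | h3
      · subst h3
        exfalso
        tauto
      · exact h3
    · intro hz
      rcases h.2 (Or.inr hz) with h3 | h3 | h3
      · exact Or.inl h3
      · subst h3
        exact absurd hpK hz.2
      · exact Or.inr h3
  have kx : x ∈ K := by
    have : x ∈ B ∩ K := by rw [← f1]; simp
    exact this.2
  have ky : y ∉ K := by
    have : y ∈ B' \ K := by rw [← s2]; simp
    exact this.2
  have kfa : ∀ z, z ∈ fs a1 ∪ fs a2 → z ∈ K := by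
    intro z hz
    have : z ∈ B ∩ K := by
      rw [← f1]
      simp only [mem_union, mem_insert_iff] at hz ⊢
      tauto
    exact this.2
  have ksa : ∀ z, z ∈ ss a1 ∪ ss a2 → z ∈ K := by
    intro z hz
    rw [Sa] at hz
    exact hz.2
  have kfb : ∀ z, z ∈ fs b1 ∪ fs b2 → z ∉ K := by
    intro z hz
    rw [Fb] at hz
    exact hz.2
  have ksb : ∀ z, z ∈ ss b1 ∪ ss b2 → z ∉ K := by
    intro z hz
    have : z ∈ B' \ K := by
      rw [← s2]
      simp only [mem_union, mem_insert_iff] at hz ⊢
      tauto
    exact this.2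
  have kX : ∀ z ∈ insert p (B' ∩ K), z ∈ K := by
    rintro z (rfl | h)
    · exact hpK
    · exact h.2
  have kX' : ∀ z ∈ B' ∩ K, z ∈ K := fun z h => h.2
  have kY : ∀ z ∈ B \ K, z ∉ K := fun z h => h.2
  have kY' : ∀ z ∈ insert q (B \ K), z ∉ K := by
    rintro z (rfl | h)
    · exact hqK
    · exact h.2
  refine ⟨(a1 ++ b1) ++ (x, y) :: (a2 ++ b2), ?_, ?_, ?_, ?_⟩
  · have := card_split (K := K) fB
    simp only [List.length_append, List.length_cons] at len1 len2 ⊢
    omega
  · simp only [fs_append, fs_cons]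
    rw [← inter_union_sdiff B K, ← f1, ← Fb]
    ext z
    simp only [mem_union, mem_insert_iff]
    tauto
  · simp only [ss_append, ss_cons]
    rw [← inter_union_sdiff B' K, ← s2, ← Sa]
    ext z
    simp only [mem_union, mem_insert_iff]
    tauto
  · intro c d hcd
    obtain ⟨u1, u2, v1, v2, h1, h2, rfl, rfl, h3⟩ := split2 hcd
    rcases v1 with _ | ⟨v, v1⟩
    · -- the cut is in the first half
      clear h3
      rw [List.nil_append] at h2
      subst h2
      obtain ⟨c1, c2, d1, d2, rfl, rfl, rfl, rfl, -⟩ := split2 h1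
      obtain ⟨m1, m2⟩ := w1 c1 (c2 ++ (x, q) :: a2) (by simp)
      obtain ⟨m3, m4⟩ := w2 d1 (d2 ++ (p, y) :: b2) (by simp)
      simp only [fs_append, ss_append, fs_cons, ss_cons, List.append_nil, mem_union] at *
      constructor
      · refine glueE (W1 := ss c1 ∪ (fs c2 ∪ insert x (fs a2)))
          (W2 := ss d1 ∪ (fs d2 ∪ fs b2)) (X := insert p (B' ∩ K)) (Y := B \ K)
          hE hK m1 m3 hp ?_ kX ?_ kY ?_ ?_ ?_ ?_
        · rintro z (h | h | rfl | h)
          · exact ksa z (by tauto)
          · exact kfa z (by tauto)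
          · exact kx
          · exact kfa z (by tauto)
        · rintro z (h | h | h)
          · exact ksb z (by tauto)
          · exact kfb z (by tauto)
          · exact kfb z (by tauto)
        all_goals
          ext z
          simp only [mem_union, mem_insert_iff]
          try tauto
      · refine glueE (W1 := fs c1 ∪ (ss c2 ∪ ss a2))
          (W2 := fs d1 ∪ (ss d2 ∪ insert y (ss b2))) (X := B' ∩ K) (Y := insert q (B \ K))
          hE hK m2 m4 hq ?_ kX' ?_ kY' ?_ ?_ ?_ ?_
        · rintro z (h | h | h)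
          · exact kfa z (by tauto)
          · exact ksa z (by tauto)
          · exact ksa z (by tauto)
        · rintro z (h | h | rfl | h)
          · exact kfb z (by tauto)
          · exact ksb z (by tauto)
          · exact ky
          · exact ksb z (by tauto)
        all_goals
          ext z
          simp only [mem_union, mem_insert_iff]
          try tauto
    · -- the cut is in the second half
      rcases h3 with rfl | h3
      swap
      · exact absurd h3 (by simp)
      rw [List.cons_append, List.cons.injEq] at h2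
      obtain ⟨rfl, h2⟩ := h2
      obtain ⟨c1, c2, d1, d2, rfl, rfl, rfl, rfl, -⟩ := split2 h2
      rw [List.append_nil] at h1
      subst h1
      obtain ⟨m1, m2⟩ := w1 (a1 ++ (x, q) :: c1) c2 (by simp)
      obtain ⟨m3, m4⟩ := w2 (b1 ++ (p, y) :: d1) d2 (by simp)
      simp only [fs_append, ss_append, fs_cons, ss_cons, List.nil_append, mem_union] at *
      constructor
      · refine glueE (W1 := ss a1 ∪ (ss c1 ∪ fs c2))
          (W2 := ss b1 ∪ insert y (ss d1 ∪ fs d2)) (X := B' ∩ K) (Y := insert q (B \ K))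
          hE hK m1 m3 hq ?_ kX' ?_ kY' ?_ ?_ ?_ ?_
        · rintro z (h | h | h)
          · exact ksa z (by tauto)
          · exact ksa z (by tauto)
          · exact kfa z (by tauto)
        · rintro z (h | rfl | h | h)
          · exact ksb z (by tauto)
          · exact ky
          · exact ksb z (by tauto)
          · exact kfb z (by tauto)
        all_goals
          ext z
          simp only [mem_union, mem_insert_iff]
          try tauto
      · refine glueE (W1 := fs a1 ∪ insert x (fs c1 ∪ ss c2))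
          (W2 := fs b1 ∪ (fs d1 ∪ ss d2)) (X := insert p (B' ∩ K)) (Y := B \ K)
          hE hK m2 m4 hp ?_ kX ?_ kY ?_ ?_ ?_ ?_
        · rintro z (h | rfl | h | h)
          · exact kfa z (by tauto)
          · exact kx
          · exact kfa z (by tauto)
          · exact ksa z (by tauto)
        · rintro z (h | h | h)
          · exact kfb z (by tauto)
          · exact kfb z (by tauto)
          · exact ksb z (by tauto)
        all_goals
          ext z
          simp only [mem_union, mem_insert_iff]
          try tauto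

end Pool.Agent.H11Sum
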