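import Pool.Agent.H11Sum.Tight

set_option autoImplicit false

namespace Pool.Agent.H11Sum

open Set Matroid

variable {α : Type*}

theorem step1D {N : Matroid α} (hE : N.E.Finite) {B B' K : Set α} (hB : N.IsBase B)
    (hB' : N.IsBase B') (hd : Disjoint B B') (hu : B ∪ B' = N.E) (hKE : K ⊆ N.E)
    (hmax : ∀ A, N.IsBase A → (A ∩ K).ncard ≤ (B ∩ K).ncard)
    (h2 : 1 ≤ K.ncard) (h2' : 1 ≤ (N.E \ K).ncard)
    (hc : (B ∩ K).ncard = (B' ∩ K).ncard)
    (ih1 : (N ／ (B \ K) ＼ (B' \ K)).E.ncard < N.E.ncard → (N ／ (B \ K) ＼ (B' \ K)).E.Finite →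
      (N ／ (B \ K) ＼ (B' \ K)).IsBase (B ∩ K) → (N ／ (B \ K) ＼ (B' \ K)).IsBase (B' ∩ K) →
      Disjoint (B ∩ K) (B' ∩ K) → (B ∩ K) ∪ (B' ∩ K) = (N ／ (B \ K) ＼ (B' \ K)).E →
      (N ／ (B \ K) ＼ (B' \ K)).E = K →
      ∃ l, Good (N ／ (B \ K) ＼ (B' \ K)) (B ∩ K) (B' ∩ K) l)
    (ih2 : (N ／ (B ∩ K) ＼ (B' ∩ K)).E.ncard < N.E.ncard → (N ／ (B ∩ K) ＼ (B' ∩ K)).E.Finite →
      (N ／ (B ∩ K) ＼ (B' ∩ K)).IsBase (B \ K) → (N ／ (B ∩ K) ＼ (B' ∩ K)).IsBase (B' \ K) →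
      Disjoint (B \ K) (B' \ K) → (B \ K) ∪ (B' \ K) = (N ／ (B ∩ K) ＼ (B' ∩ K)).E →
      (N ／ (B ∩ K) ＼ (B' ∩ K)).E = N.E \ K →
      ∃ l, Good (N ／ (B ∩ K) ＼ (B' ∩ K)) (B \ K) (B' \ K) l) :
    ∃ l, Good N B B' l := by
  have hdm : ∀ z, z ∈ B → z ∈ B' → False := fun z h h' => (Set.disjoint_left.1 hd) h h'
  have hum : ∀ z, z ∈ N.E ↔ z ∈ B ∨ z ∈ B' := fun z => by rw [← hu, mem_union]
  have fK : K.Finite := hE.subset hKE
  have fL : (N.E \ K).Finite := hE.subset sdiff_subset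
  have hn : K.ncard + (N.E \ K).ncard = N.E.ncard := by
    have := card_split (K := K) hE
    rwa [inter_eq_right.2 hKE] at this
  have b1 : N.IsBase ((B ∩ K) ∪ (B \ K)) := by rw [inter_union_sdiff]; exact hB
  have b1' : N.IsBase ((B \ K) ∪ (B ∩ K)) := by rw [union_comm]; exact b1
  have b2 : N.IsBase ((B' ∩ K) ∪ (B \ K)) :=
    swapMax hE (fun A hA => hc ▸ hmax A hA) hB' hB hc.symm
  have b3 : N.IsBase ((B' \ K) ∪ (B ∩ K)) := by
    rw [union_comm]
    exact swapMax hE hmax hB hB' hc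
  have m1 := minor_base (N := N) (C := B \ K) (D := B' \ K) (X0 := B ∩ K) b1
    (Set.disjoint_left.2 fun z h h' => h'.2 h.2)
    (Set.disjoint_left.2 fun z h h' => h'.2 h.2)
    (sdiff_subset.trans hB'.subset_ground)
    (Set.disjoint_left.2 fun z h h' => hdm z h.1 h'.1)
  have m2 := minor_base (N := N) (C := B ∩ K) (D := B' ∩ K) (X0 := B \ K) b1'
    (Set.disjoint_left.2 fun z h h' => h.2 h'.2)
    (Set.disjoint_left.2 fun z h h' => h.2 h'.2)
    (inter_subset_left.trans hB'.subset_ground)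
    (Set.disjoint_left.2 fun z h h' => hdm z h.1 h'.1)
  have g1 : (N ／ (B \ K) ＼ (B' \ K)).E = K := by
    rw [delete_ground, contract_ground]
    ext z
    simp only [mem_sdiff, hum]
    constructor
    · tauto
    · intro hz
      have := hum z
      have := hKE hz
      tauto
  have g2 : (N ／ (B ∩ K) ＼ (B' ∩ K)).E = N.E \ K := by
    rw [delete_ground, contract_ground]
    ext z
    simp only [mem_sdiff, hum, mem_inter_iff]
    tauto
  obtain ⟨l1, hl1⟩ := ih1 (by rw [g1]; omega) (by rw [g1]; exact fK)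
    ((m1 _).2 ⟨⟨b1, Set.disjoint_left.2 fun z h h' => h'.2 h.2⟩,
      Set.disjoint_left.2 fun z h h' => h'.2 h.2⟩)
    ((m1 _).2 ⟨⟨b2, Set.disjoint_left.2 fun z h h' => h'.2 h.2⟩,
      Set.disjoint_left.2 fun z h h' => h'.2 h.2⟩)
    (Set.disjoint_left.2 fun z h h' => hdm z h.1 h'.1)
    (by
      rw [g1]
      ext z
      simp only [mem_union, mem_inter_iff]
      constructor
      · tauto
      · intro hz
        have := (hum z).1 (hKE hz)
        tauto)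
    g1
  obtain ⟨l2, hl2⟩ := ih2 (by rw [g2]; omega) (by rw [g2]; exact fL)
    ((m2 _).2 ⟨⟨b1', Set.disjoint_left.2 fun z h h' => h.2 h'.2⟩,
      Set.disjoint_left.2 fun z h h' => h.2 h'.2⟩)
    ((m2 _).2 ⟨⟨b3, Set.disjoint_left.2 fun z h h' => h.2 h'.2⟩,
      Set.disjoint_left.2 fun z h h' => h.2 h'.2⟩)
    (Set.disjoint_left.2 fun z h h' => hdm z h.1 h'.1)
    (by
      rw [g2]
      ext z
      simp only [mem_union, mem_sdiff, hum]
      tauto)
    g2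
  exact ⟨l1 ++ l2, glue1T hE hmax hB hl1.len hl2.len hl1.e1 hl1.e2 hl2.e1 hl2.e2
    (fun a b h => ⟨((m1 _).1 (hl1.w a b h).1).1.1, ((m1 _).1 (hl1.w a b h).2).1.1⟩)
    (fun a b h => ⟨((m2 _).1 (hl2.w a b h).1).1.1, ((m2 _).1 (hl2.w a b h).2).1.1⟩)⟩

/-- if `K` is spanned by `B ∩ K` then `B` has the largest number of elements in `K` -/
theorem max_of_span {N : Matroid α} (hE : N.E.Finite) {A B K : Set α} (hA : N.IsBase A)
    (hB : N.IsBase B) (hK : K ⊆ N.closure (B ∩ K)) : (A ∩ K).ncard ≤ (B ∩ K).ncard := by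
  have hb : N.IsBasis (B ∩ K) K :=
    (hB.indep.subset inter_subset_left).isBasis_of_subset_of_subset_closure inter_subset_right hK
  have fA : (A ∩ K).Finite := (hE.subset hA.subset_ground).subset inter_subset_left
  have fB : (B ∩ K).Finite := (hE.subset hB.subset_ground).subset inter_subset_left
  have h1 := (hA.indep.subset (inter_subset_left (t := K))).encard_le_eRk_of_subset
    (inter_subset_right (s := A))
  rw [← hb.encard_eq_eRk, ← fA.cast_ncard_eq, ← fB.cast_ncard_eq] at h1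
  exact_mod_cast h1

theorem unsplit (M : Matroid α) (F : Set (Set α))
    (hleaf : ∀ N : Matroid α, N ≤m M → (∀ T ∈ F, N.E ⊆ T ∨ Disjoint N.E T) → Conn3 N → Dense N →
      Ok N) :
    ∀ n, ∀ N : Matroid α, N ≤m M → N.E.Finite → N.E.ncard = n → ∀ B B', N.IsBase B →
      N.IsBase B' → Disjoint B B' → B ∪ B' = N.E →
      (∀ T ∈ F, T ∩ N.E ⊆ N.closure (B ∩ T) ∧ T ∩ N.E ⊆ N.closure (B' ∩ T)) →
      ∃ l, Good N B B' l := by
  intro n
  induction n using Nat.strong_induction_on with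
  | _ n ih =>
  intro N hN hE hn B B' hB hB' hd hu hF
  by_cases hc : ∀ T ∈ F, N.E ⊆ T ∨ Disjoint N.E T
  · exact reductionT N (fun N' h' h3 hD => hleaf N' (h'.trans hN)
      (fun T hT => (hc T hT).imp (fun h => h'.subset.trans h)
        (fun h => h.mono_left h'.subset)) h3 hD) _ N IsMinor.refl rfl hE B B' hB hB' hd hu
  push Not at hc
  obtain ⟨T0, hT0, hc1, hc2⟩ := hc
  have hBE := hB.subset_ground
  have hBE' := hB'.subset_ground
  have fB : B.Finite := hE.subset hBE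
  have fB' : B'.Finite := hE.subset hBE'
  have hdm : ∀ z, z ∈ B → z ∈ B' → False := fun z h h' => (Set.disjoint_left.1 hd) h h'
  obtain ⟨K, hKdef⟩ : ∃ K, K = T0 ∩ N.E := ⟨_, rfl⟩
  have hKE : K ⊆ N.E := by rw [hKdef]; exact inter_subset_right
  have fK : K.Finite := hE.subset hKE
  have hBK : B ∩ T0 = B ∩ K := by
    rw [hKdef]
    ext z
    have : z ∈ B → z ∈ N.E := fun h => hBE h
    simp only [mem_inter_iff]
    tauto
  have hBK' : B' ∩ T0 = B' ∩ K := by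
    rw [hKdef]
    ext z
    have : z ∈ B' → z ∈ N.E := fun h => hBE' h
    simp only [mem_inter_iff]
    tauto
  obtain ⟨s1, s2⟩ := hF T0 hT0
  rw [← hKdef, hBK] at s1
  rw [← hKdef, hBK'] at s2
  have hmax : ∀ A, N.IsBase A → (A ∩ K).ncard ≤ (B ∩ K).ncard := fun A hA =>
    max_of_span hE hA hB s1
  have hmax' : ∀ A, N.IsBase A → (A ∩ K).ncard ≤ (B' ∩ K).ncard := fun A hA =>
    max_of_span hE hA hB' s2
  have hne : K.Nonempty := by
    rw [Set.not_disjoint_iff] at hc2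
    obtain ⟨z, hz1, hz2⟩ := hc2
    exact ⟨z, by rw [hKdef]; exact ⟨hz2, hz1⟩⟩
  have hne2 : (N.E \ K).Nonempty := by
    rw [Set.not_subset] at hc1
    obtain ⟨z, hz1, hz2⟩ := hc1
    exact ⟨z, hz1, fun h => hz2 (by rw [hKdef] at h; exact h.1)⟩
  -- the traces of the tight sets
  have inB : ∀ T ∈ F, T ∩ K ⊆ N.closure (B ∩ T ∩ K) := by
    intro T hT z hz
    have h1 : z ∈ N.closure (B ∩ T) := (hF T hT).1 ⟨hz.1, hKE hz.2⟩
    have h2 : z ∈ N.closure (B ∩ K) := s1 hz.2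
    have h3 := Indep.closure_inter_eq_inter_closure (M := N) (I := B ∩ T) (J := B ∩ K)
      (hB.indep.subset (union_subset inter_subset_left inter_subset_left))
    have h4 : z ∈ N.closure ((B ∩ T) ∩ (B ∩ K)) := by rw [h3]; exact ⟨h1, h2⟩
    refine N.closure_subset_closure ?_ h4
    rintro w ⟨⟨a, b⟩, -, c⟩
    exact ⟨⟨a, b⟩, c⟩
  have inB' : ∀ T ∈ F, T ∩ K ⊆ N.closure (B' ∩ T ∩ K) := by
    intro T hT z hz
    have h1 : z ∈ N.closure (B' ∩ T) := (hF T hT).2 ⟨hz.1, hKE hz.2⟩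
    have h2 : z ∈ N.closure (B' ∩ K) := s2 hz.2
    have h3 := Indep.closure_inter_eq_inter_closure (M := N) (I := B' ∩ T) (J := B' ∩ K)
      (hB'.indep.subset (union_subset inter_subset_left inter_subset_left))
    have h4 : z ∈ N.closure ((B' ∩ T) ∩ (B' ∩ K)) := by rw [h3]; exact ⟨h1, h2⟩
    refine N.closure_subset_closure ?_ h4
    rintro w ⟨⟨a, b⟩, -, c⟩
    exact ⟨⟨a, b⟩, c⟩
  refine step1D (K := K) hE hB hB' hd hu hKE hmax ((Set.ncard_pos fK).2 hne)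
    ((Set.ncard_pos (hE.subset sdiff_subset)).2 hne2)
    (le_antisymm (hmax' B hB) (hmax B' hB')) ?_ ?_
  · intro h2 h3 h4 h5 h6 h7 g
    refine ih _ (hn ▸ h2) _ ((contract_delete_isMinor _ _ _).trans hN) h3 rfl _ _ h4 h5 h6 h7 ?_
    intro T hT
    rw [g, delete_closure_eq, delete_closure_eq, contract_closure_eq, contract_closure_eq]
    constructor
    · rintro z ⟨hzT, hzK⟩
      refine ⟨⟨?_, fun h => h.2 hzK⟩, fun h => h.2 hzK⟩
      refine N.closure_subset_closure ?_ (inB T hT ⟨hzT, hzK⟩)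
      rintro w ⟨⟨a, b⟩, c⟩
      exact Or.inl ⟨⟨⟨a, c⟩, b⟩, fun h => h.2 c⟩
    · rintro z ⟨hzT, hzK⟩
      refine ⟨⟨?_, fun h => h.2 hzK⟩, fun h => h.2 hzK⟩
      refine N.closure_subset_closure ?_ (inB' T hT ⟨hzT, hzK⟩)
      rintro w ⟨⟨a, b⟩, c⟩
      exact Or.inl ⟨⟨⟨a, c⟩, b⟩, fun h => h.2 c⟩
  · intro h2 h3 h4 h5 h6 h7 g
    refine ih _ (hn ▸ h2) _ ((contract_delete_isMinor _ _ _).trans hN) h3 rfl _ _ h4 h5 h6 h7 ?_
    intro T hT
    rw [g, delete_closure_eq, delete_closure_eq, contract_closure_eq, contract_closure_eq]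
    constructor
    · rintro z ⟨hzT, hzE, hzK⟩
      refine ⟨⟨?_, fun h => hzK h.2⟩, fun h => hzK h.2⟩
      refine N.closure_subset_closure ?_ ((hF T hT).1 ⟨hzT, hzE⟩)
      rintro w ⟨a, b⟩
      by_cases c : w ∈ K
      · exact Or.inr ⟨a, c⟩
      · exact Or.inl ⟨⟨⟨a, c⟩, b⟩, fun h => c h.2⟩
    · rintro z ⟨hzT, hzE, hzK⟩
      refine ⟨⟨?_, fun h => hzK h.2⟩, fun h => hzK h.2⟩
      have h1 := (hF T hT).2 ⟨hzT, hzE⟩
      refine N.closure_subset_closure_of_subset_closure ?_ h1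
      rintro w ⟨a, b⟩
      by_cases c : w ∈ K
      · exact N.closure_subset_closure subset_union_right (s1 c)
      · refine N.mem_closure_of_mem' (Or.inl ⟨⟨⟨a, c⟩, b⟩, fun h => c h.2⟩) (hBE' a)

end Pool.Agent.H11Sum
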